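import Pool.Agent.Helper49.KR.St

set_option autoImplicit false

namespace Pool.Agent.Helper8.KR

open Finset Filter Topology Module
open Pool.Agent.Helper49.KX Pool.Agent.Helper49.KR

theorem bsm_mul (a b : ℕ) (P P' : Matrix (Fin a) (Fin a) ℂ) (Q Q' : Matrix (Fin b) (Fin b) ℂ) :
    bsm (P * P') (Q * Q') = bsm P Q * bsm P' Q' := by
  unfold bsm
  rw [Matrix.reindex_apply, Matrix.reindex_apply, Matrix.reindex_apply, Matrix.submatrix_mul_equiv, Matrix.fromBlocks_multiply]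
  simp

theorem bsm_add (a b : ℕ) (P P' : Matrix (Fin a) (Fin a) ℂ) (Q Q' : Matrix (Fin b) (Fin b) ℂ) :
    bsm (P + P') (Q + Q') = bsm P Q + bsm P' Q' := by
  unfold bsm
  have h : Matrix.fromBlocks (P + P') 0 0 (Q + Q') = Matrix.fromBlocks P 0 0 Q + Matrix.fromBlocks P' 0 0 Q' := by
    rw [Matrix.fromBlocks_add]
    simp
  rw [h]
  rfl

theorem bsm_one (a b : ℕ) : bsm (1 : Matrix (Fin a) (Fin a) ℂ) (1 : Matrix (Fin b) (Fin b) ℂ) = 1 := by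
  unfold bsm
  rw [Matrix.reindex_apply, Matrix.fromBlocks_one, Matrix.submatrix_one_equiv]

theorem bsm_unit (a b : ℕ) (P : Matrix (Fin a) (Fin a) ℂ) (Q : Matrix (Fin b) (Fin b) ℂ) (hP : IsUnit P) (hQ : IsUnit Q) :
    IsUnit (bsm P Q) ∧ (bsm P Q)⁻¹ = bsm P⁻¹ Q⁻¹ := by
  have hP' : IsUnit P.det := (Matrix.isUnit_iff_isUnit_det P).1 hP
  have hQ' : IsUnit Q.det := (Matrix.isUnit_iff_isUnit_det Q).1 hQ
  have h1 : bsm P Q * bsm P⁻¹ Q⁻¹ = 1 := by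
    rw [← bsm_mul, Matrix.mul_nonsing_inv P hP', Matrix.mul_nonsing_inv Q hQ', bsm_one]
  refine ⟨?_, Matrix.inv_eq_right_inv h1⟩
  rw [Matrix.isUnit_iff_isUnit_det]
  exact Matrix.isUnit_det_of_right_inverse h1

theorem bsc_eq (a b : ℕ) (Z0 : Matrix (Fin a) (Fin a) ℂ) (Z1 : Matrix (Fin b) (Fin b) ℂ) :
    (bsm Z0 Z1).submatrix (swp a b).symm (swp a b).symm = bsc Z1 Z0 := by
  unfold bsc bsm swp
  ext i j
  simp only [Matrix.submatrix_apply, Matrix.reindex_apply, Equiv.symm_trans_apply, Equiv.symm_symm, Equiv.symm_apply_apply]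
  generalize finSumFinEquiv.symm ((finCongr (Nat.add_comm b a)).symm i) = x
  generalize finSumFinEquiv.symm ((finCongr (Nat.add_comm b a)).symm j) = y
  rcases x with x | x <;> rcases y with y | y <;> simp

theorem bsc_mul (a b : ℕ) (P P' : Matrix (Fin a) (Fin a) ℂ) (Q Q' : Matrix (Fin b) (Fin b) ℂ) :
    bsc (Q * Q') (P * P') = bsc Q P * bsc Q' P' := by
  rw [← bsc_eq, ← bsc_eq, ← bsc_eq, Matrix.submatrix_mul_equiv, bsm_mul]

theorem bsc_unit (a b : ℕ) (P : Matrix (Fin a) (Fin a) ℂ) (Q : Matrix (Fin b) (Fin b) ℂ) (hP : IsUnit P) (hQ : IsUnit Q) :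
    IsUnit (bsc Q P) ∧ (bsc Q P)⁻¹ = bsc Q⁻¹ P⁻¹ := by
  rw [← bsc_eq, ← bsc_eq]
  obtain ⟨h1, h2⟩ := bsm_unit a b P Q hP hQ
  refine ⟨(Matrix.isUnit_submatrix_equiv _ _).2 h1, ?_⟩
  rw [Matrix.inv_submatrix_equiv, h2]

theorem hBSM : StBsm := by
  intro a b
  refine ⟨fun P P' Q Q' => ⟨bsm_mul a b P P' Q Q', bsm_add a b P P' Q Q', fun hP hQ => bsm_unit a b P Q hP hQ⟩, bsm_one a b, ?_⟩
  intro P P' Q Q' hP hQ
  obtain ⟨h1, h2⟩ := bsc_unit a b P Q hP hQ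
  refine ⟨?_, fun Z0 Z1 => ?_⟩
  · exact (Matrix.isUnit_submatrix_equiv (Equiv.refl _) (swp a b)).2 h1
  · have h3 : ((bsc Q P).submatrix id (swp a b))⁻¹ = (bsc Q P)⁻¹.submatrix (swp a b) id :=
      Matrix.inv_submatrix_equiv (bsc Q P) (Equiv.refl _) (swp a b)
    have h4 : bsm Z0 Z1 = (bsc Z1 Z0).submatrix (swp a b) (swp a b) := by
      rw [← bsc_eq, Matrix.submatrix_submatrix]
      simp
    rw [h3, h2, h4, Matrix.submatrix_mul_equiv, Matrix.submatrix_mul_equiv, bsc_mul, bsc_mul, Matrix.submatrix_id_id]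

end Pool.Agent.Helper8.KR
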