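import Pool.Agent.Helper49.KR.St

set_option autoImplicit false

namespace Pool.Agent.Helper8.KR

open Finset Filter Topology Module
open Pool.Agent.Helper49.KX Pool.Agent.Helper49.KR

theorem cmp_cmp {X : Type} [TopologicalSpace X] (h : X ≃ₜ X) (a b : ℤ) (f : C(X, ℂ)) :
    cmp h a (cmp h b f) = cmp h (b + a) f := by
  ext x
  simp only [cmp_apply]
  rw [zpow_add]
  rfl

theorem tw_single {X : Type} [TopologicalSpace X] (h : X ≃ₜ X) (w : FS X) (n0 : ℤ) (F : C(X, ℂ)) (k : ℤ) :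
    tw h w (Finsupp.single (-n0) (cmp h n0 F)) k = w (k + n0) * cmp h (-k) F := by
  unfold tw
  have h1 : ∀ (m : ℤ) (f : C(X, ℂ)), (Finsupp.single (-n0) (cmp h n0 F)).sum
      (fun n f' => Finsupp.single (m + n) (f * cmp h (-m) f')) = Finsupp.single (m + -n0) (f * cmp h (n0 - m) F) := by
    intro m f
    rw [Finsupp.sum_single_index]
    · rw [cmp_cmp, sub_eq_add_neg n0 m]
    · have h2 : cmp h (-m) (0 : C(X, ℂ)) = 0 := by
        ext x
        simp
      rw [h2, mul_zero, Finsupp.single_zero]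
  simp only [h1]
  rw [Finsupp.sum_apply]
  unfold Finsupp.sum
  by_cases hk : k + n0 ∈ w.support
  · rw [Finset.sum_eq_single (k + n0)]
    · beta_reduce
      rw [add_neg_cancel_right, Finsupp.single_eq_same]
      congr 2
      ring
    · intro m _ hm
      beta_reduce
      rw [Finsupp.single_eq_of_ne]
      intro h2
      exact hm (by omega)
    · intro h2
      exact absurd hk h2
  · rw [Finset.sum_eq_zero]
    · rw [Finsupp.notMem_support_iff.1 hk, zero_mul]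
    · intro m hm
      beta_reduce
      rw [Finsupp.single_eq_of_ne]
      intro h2
      have h3 : m = k + n0 := by omega
      exact hk (h3 ▸ hm)

theorem rot_ne (θ : ℝ) (hθ : Irrational θ) (k : ℤ) (hk : k ≠ 0) (t : X0) : (rot θ ^ (-k) : X0 ≃ₜ X0) t ≠ t := by
  rw [rot_zpow]
  intro h
  have h1 : ((((-k : ℤ) : ℝ) * θ : ℝ) : X0) = 0 := by
    have h2 := congrArg (fun y => y - t) h
    simpa using h2
  rw [AddCircle.coe_eq_zero_iff] at h1
  obtain ⟨n, hn⟩ := h1
  apply hθ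
  have hk' : ((-k : ℤ) : ℝ) ≠ 0 := by
    exact_mod_cast neg_ne_zero.2 hk
  refine ⟨(n : ℚ) / ((-k : ℤ) : ℚ), ?_⟩
  have h3 : (n : ℝ) = ((-k : ℤ) : ℝ) * θ := by simpa using hn
  rw [Rat.cast_div, Rat.cast_intCast, Rat.cast_intCast, h3]
  field_simp

theorem hFLR : StFlr := by
  intro θ hθ g hw
  set w : FS X0 := tw (rot θ) g (un - g) with hwd
  obtain ⟨n0, hn0⟩ : ∃ n0, w n0 ≠ 0 := by
    by_contra h
    push Not at h
    exact hw (Finsupp.ext h)
  obtain ⟨t1, ht1⟩ : ∃ t1, w n0 t1 ≠ 0 := by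
    by_contra h
    push Not at h
    exact hn0 (ContinuousMap.ext h)
  set c : ℝ := ‖w n0 t1‖ / 2 with hc
  have hc0 : 0 < c := by
    have := norm_pos_iff.2 ht1
    linarith
  have hsep : ∀ k : ℤ, k ≠ 0 → ∃ O : Set X0, IsOpen O ∧ t1 ∈ O ∧ ∀ x ∈ O, (rot θ ^ (-k) : X0 ≃ₜ X0) x ∉ O := by
    intro k hk
    obtain ⟨U1, U2, hU1, hU2, h1, h2, h3⟩ := t2_separation (rot_ne θ hθ k hk t1).symm
    refine ⟨U1 ∩ (rot θ ^ (-k) : X0 ≃ₜ X0) ⁻¹' U2, hU1.inter (hU2.preimage (rot θ ^ (-k) : X0 ≃ₜ X0).continuous), ⟨h1, h2⟩, ?_⟩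
    rintro x ⟨_, hx⟩ ⟨hx', _⟩
    exact Set.disjoint_left.1 h3 hx' hx
  choose! O hO1 hO2 hO3 using hsep
  set S : Finset ℤ := (w.support.image fun m => m - n0).erase 0 with hS
  set V : Set X0 := {x | c < ‖w n0 x‖} ∩ ⋂ k ∈ S, O k with hV
  have hS0 : ∀ k ∈ S, k ≠ 0 := fun k hk => (Finset.mem_erase.1 hk).1
  have hVo : IsOpen V := by
    refine IsOpen.inter (isOpen_lt continuous_const (w n0).continuous.norm) ?_
    exact isOpen_biInter_finset fun k hk => hO1 k (hS0 k hk)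
  have hVn : t1 ∈ V := by
    refine ⟨?_, ?_⟩
    · show c < ‖w n0 t1‖
      linarith
    · simp only [Set.mem_iInter]
      exact fun k hk => hO2 k (hS0 k hk)
  have hden : ∀ x : X0, ((max (‖w n0 x‖ ^ 2) (c ^ 2) : ℝ) : ℂ) ≠ 0 := by
    intro x
    rw [Complex.ofReal_ne_zero]
    have : 0 < max (‖w n0 x‖ ^ 2) (c ^ 2) := lt_max_of_lt_right (by positivity)
    exact this.ne'
  let F : C(X0, ℂ) := ⟨fun x => (starRingEnd ℂ) (w n0 x) / ((max (‖w n0 x‖ ^ 2) (c ^ 2) : ℝ) : ℂ), by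
    refine Continuous.div ?_ ?_ hden
    · exact Complex.continuous_conj.comp (w n0).continuous
    · exact Complex.continuous_ofReal.comp (((w n0).continuous.norm.pow 2).max continuous_const)⟩
  refine ⟨Finsupp.single (-n0) (cmp (rot θ) n0 F), V, hVo, ⟨t1, hVn⟩, ?_, ?_⟩
  · intro x hx
    unfold yy
    rw [← hwd, tw_single, zero_add]
    have h1 : cmp (rot θ) (-0) F x = F x := by
      rw [cmp_apply]
      simp
    rw [ContinuousMap.mul_apply, h1]
    show w n0 x * ((starRingEnd ℂ) (w n0 x) / ((max (‖w n0 x‖ ^ 2) (c ^ 2) : ℝ) : ℂ)) = 1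
    have h2 : c < ‖w n0 x‖ := hx.1
    have h3 : max (‖w n0 x‖ ^ 2) (c ^ 2) = ‖w n0 x‖ ^ 2 := by
      refine max_eq_left ?_
      exact pow_le_pow_left₀ hc0.le h2.le 2
    rw [h3, ← mul_div_assoc, Complex.mul_conj, Complex.normSq_eq_norm_sq]
    rw [div_self]
    rw [Complex.ofReal_ne_zero]
    have : 0 < ‖w n0 x‖ := lt_trans hc0 h2
    positivity
  · intro k hk x hx hx'
    unfold yy
    rw [← hwd, tw_single]
    have h1 : w (k + n0) = 0 := by
      by_contra h2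
      have h3 : k ∈ S := by
        rw [hS, Finset.mem_erase]
        refine ⟨hk, Finset.mem_image.2 ⟨k + n0, Finsupp.mem_support_iff.2 h2, by ring⟩⟩
      have h4 : ∀ z ∈ V, z ∈ O k := by
        intro z hz
        have h5 := hz.2
        simp only [Set.mem_iInter] at h5
        exact h5 k h3
      exact hO3 k hk x (h4 x hx) (h4 _ hx')
    rw [h1, zero_mul, ContinuousMap.zero_apply]

end Pool.Agent.Helper8.KR
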