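import Pool.Agent.Helper49.KR.St

set_option autoImplicit false

namespace Pool.Agent.Helper8.KR

open Finset Filter Topology Module
open Pool.Agent.Helper49.KX Pool.Agent.Helper49.KR

theorem cw_cont (θ : ℝ) (r : ℕ) (g : FS X0) (i k : Fin r) : Continuous fun s : ℝ => cw θ r g s i k := by
  unfold cw
  have h1 : Continuous fun s : ℝ => ((s + ((i : ℕ) : ℝ) * θ : ℝ) : X0) :=
    (AddCircle.continuous_mk' (1 : ℝ)).comp (by fun_prop)
  exact (g (((i : ℕ) : ℤ) - ((k : ℕ) : ℤ))).continuous.comp h1

theorem Gm_line {r : ℕ} (κ : Fin r → Fin 4) (u v c η : Matrix (Fin r) (Fin r) ℂ) (z : ℂ) :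
    Gm κ (u + z • (v - u)) c η = Gm κ u c η + z • (Gm κ v c η - Gm κ u c η) := by
  ext i l
  simp only [Gm, Matrix.add_apply, Matrix.smul_apply, Matrix.sub_apply, Matrix.mul_add, Matrix.mul_smul, Matrix.mul_sub,
    smul_eq_mul]
  split_ifs <;> ring

theorem hFMP : StFmp := by
  intro θ r g y κ W
  refine ⟨?_, ?_⟩
  · have hu : ∀ i l, Continuous fun q : ℝ × W => (q.2 : Matrix (Fin r) (Fin r) ℂ) i l := by
      intro i l
      exact (continuous_subtype_val.comp continuous_snd).matrix_elem i l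
    have hmul : ∀ (g : FS X0) (i l : Fin r), Continuous fun q : ℝ × W =>
        (cw θ r g q.1 * (q.2 : Matrix (Fin r) (Fin r) ℂ)) i l := by
      intro g i l
      simp only [Matrix.mul_apply]
      refine continuous_finsetSum _ fun k _ => ?_
      exact ((cw_cont θ r g i k).comp continuous_fst).mul (hu k l)
    refine Continuous.matrix_det ?_
    refine continuous_matrix fun i l => ?_
    change Continuous fun q : ℝ × W => if κ l = 0 then (cw θ r g q.1 * (q.2 : Matrix (Fin r) (Fin r) ℂ)) i l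
      else if κ l = 1 then ((q.2 : Matrix (Fin r) (Fin r) ℂ) - cw θ r g q.1 * (q.2 : Matrix (Fin r) (Fin r) ℂ)) i l
      else if κ l = 2 then (cw θ r y q.1 * (q.2 : Matrix (Fin r) (Fin r) ℂ)) i l else (q.2 : Matrix (Fin r) (Fin r) ℂ) i l
    split_ifs
    · exact hmul g i l
    · simp only [Matrix.sub_apply]
      exact (hu i l).sub (hmul g i l)
    · exact hmul y i l
    · exact hu i l
  · intro s u v
    set A := Gm κ (u : Matrix (Fin r) (Fin r) ℂ) (cw θ r g s) (cw θ r y s) with hA
    set B := Gm κ (v : Matrix (Fin r) (Fin r) ℂ) (cw θ r g s) (cw θ r y s) - A with hB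
    refine ⟨(Matrix.of fun i l => Polynomial.C (A i l) + Polynomial.X * Polynomial.C (B i l)).det, fun z => ?_⟩
    have h1 : ((u + z • (v - u) : W) : Matrix (Fin r) (Fin r) ℂ) =
        (u : Matrix (Fin r) (Fin r) ℂ) + z • ((v : Matrix (Fin r) (Fin r) ℂ) - u) := by
      rfl
    rw [h1, Gm_line]
    have h2 := RingHom.map_det (Polynomial.evalRingHom z)
      (Matrix.of fun i l => Polynomial.C (A i l) + Polynomial.X * Polynomial.C (B i l))
    rw [Polynomial.coe_evalRingHom] at h2
    rw [h2]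
    congr 1
    ext i l
    simp [hB, hA]

end Pool.Agent.Helper8.KR
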