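import Pool.Agent.Helper49.KR.St

set_option autoImplicit false

namespace Pool.Agent.Helper8.KR

open Finset Filter Topology Module
open Pool.Agent.Helper49.KX Pool.Agent.Helper49.KR

theorem hWMT : StWmt := by
  refine ⟨?_, ?_, ?_⟩
  · intro r κ σ h
    have hw : ∀ i l, wm κ σ i l = if κ l = 3 ∧ i = σ l then 1 else 0 := fun _ _ => rfl
    have hinj : ∀ i l, i = σ l ↔ l = σ i := by
      intro i l
      constructor
      · rintro rfl
        rw [h.inv]
      · rintro rfl
        rw [h.inv]
    refine ⟨?_, ?_, ?_, ?_, ?_, ?_⟩
    · ext i l
      unfold dg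
      rw [Matrix.diagonal_mul, hw]
      by_cases h1 : κ l = 3 ∧ i = σ l
      · obtain ⟨h2, h3⟩ := h1
        have h4 : κ i = 2 := by rw [h3]; exact h.rf l h2
        rw [if_pos h4, one_mul]
      · simp [h1]
    · ext i l
      unfold dg
      rw [Matrix.mul_diagonal, hw]
      by_cases h1 : κ l = 3 ∧ i = σ l
      · simp [h1.1]
      · simp [h1]
    · ext i l
      unfold dg
      rw [Matrix.diagonal_mul, Matrix.transpose_apply, hw]
      by_cases h1 : κ i = 3 ∧ l = σ i
      · simp [h1.1]
      · simp [h1]
    · ext i l
      unfold dg
      rw [Matrix.mul_diagonal, Matrix.transpose_apply, hw]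
      by_cases h1 : κ i = 3 ∧ l = σ i
      · obtain ⟨h2, h3⟩ := h1
        have h4 : κ l = 2 := by rw [h3]; exact h.rf i h2
        rw [if_pos h4, mul_one]
      · simp [h1]
    · ext i l
      rw [Matrix.mul_apply]
      unfold dg
      simp only [Matrix.transpose_apply, Matrix.diagonal_apply, hw]
      rw [Finset.sum_eq_single (σ i)]
      · by_cases h1 : κ i = 3
        · by_cases h2 : i = l
          · subst h2
            simp [h1]
          · have h3 : ¬ (σ i = σ l) := fun h4 => h2 (σ.injective h4)
            simp [h1, h2, h3]
        · by_cases h2 : i = l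
          · subst h2
            simp [h1]
          · simp [h1, h2]
      · intro j _ hj
        have h1 : ¬ (κ i = 3 ∧ j = σ i) := fun h2 => hj h2.2
        simp [h1]
      · intro h1
        exact absurd (Finset.mem_univ _) h1
    · ext i l
      rw [Matrix.mul_apply]
      unfold dg
      simp only [Matrix.transpose_apply, Matrix.diagonal_apply, hw]
      rw [Finset.sum_eq_single (σ i)]
      · by_cases h1 : κ i = 2
        · have h5 : κ (σ i) = 3 := h.fr i h1
          by_cases h2 : i = l
          · subst h2
            simp [h1, h5, h.inv]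
          · have h3 : ¬ (l = σ (σ i)) := by rw [h.inv]; exact fun h4 => h2 h4.symm
            simp [h2, h3]
        · have h5 : κ (σ i) ≠ 3 := fun h6 => h1 (by have := h.rf _ h6; rwa [h.inv] at this)
          by_cases h2 : i = l
          · subst h2
            simp [h1, h5]
          · simp [h5, h2]
      · intro j _ hj
        have h1 : ¬ (κ j = 3 ∧ i = σ j) := fun h2 => hj ((hinj i j).1 h2.2)
        simp [h1]
      · intro h1
        exact absurd (Finset.mem_univ _) h1
  · intro r κ
    refine ⟨?_, ?_⟩
    · unfold dg
      rw [Matrix.diagonal_add, Matrix.diagonal_add, Matrix.diagonal_add, ← Matrix.diagonal_one]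
      congr 1
      funext l
      generalize κ l = t
      fin_cases t <;> simp
    · intro t t'
      unfold dg
      rw [Matrix.diagonal_mul_diagonal]
      split_ifs with h
      · subst h
        congr 1
        funext l
        by_cases h1 : κ l = t <;> simp [h1]
      · rw [← Matrix.diagonal_zero]
        congr 1
        funext l
        by_cases h1 : κ l = t
        · have h2 : κ l ≠ t' := by rw [h1]; exact h
          simp [h1, h]
        · simp [h1]
  · intro a b κ0 κ1 t
    unfold dg bsm
    ext i j
    rw [Matrix.reindex_apply, Matrix.submatrix_apply]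
    obtain ⟨x, rfl⟩ := finSumFinEquiv.surjective i
    obtain ⟨y, rfl⟩ := finSumFinEquiv.surjective j
    rw [Equiv.symm_apply_apply, Equiv.symm_apply_apply]
    have hne : ∀ (u : Fin a) (v : Fin b), Fin.castAdd b u ≠ Fin.natAdd a v := by
      intro u v h
      have h1 := congrArg Fin.val h
      simp only [Fin.val_castAdd, Fin.val_natAdd] at h1
      omega
    rcases x with x | x <;> rcases y with y | y <;>
      simp [Matrix.diagonal_apply, Fin.append_left, Fin.append_right, hne, (hne _ _).symm]

end Pool.Agent.Helper8.KR
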